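import Mathlib

/-!
# Families of power series with coefficients in a ring of sequences
(job BB-ONE of helper152, written by helper541)
-/

set_option autoImplicit false

namespace Pool.Agent.TH541.BB

open PowerSeries

section ring

variable {k : Type} [Field k] {A : Subalgebra k (ℕ → k)} {d : ℕ}

/-- the evaluation at the index `m` -/
noncomputable def ev (A : Subalgebra k (ℕ → k)) (m : ℕ) : A →+* k :=
  (Pi.evalRingHom (fun _ => k) m).comp A.val.toRingHom

theorem ev_apply (m : ℕ) (x : A) : ev A m x = (x : ℕ → k) m := rfl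

theorem ev_algebraMap (m : ℕ) (a : k) : ev A m (algebraMap k A a) = a := rfl

/-- a combination of the power series `E l` with coefficients in `A` -/
noncomputable def gA (b : Fin d → A) (E : Fin d → PowerSeries k) : PowerSeries A :=
  ∑ l, PowerSeries.C (b l) * PowerSeries.map (algebraMap k A) (E l)

theorem map_ev_gA (m : ℕ) (b : Fin d → A) (E : Fin d → PowerSeries k) :
    PowerSeries.map (ev A m) (gA b E) = ∑ l, PowerSeries.C ((b l : ℕ → k) m) * E l := by
  unfold gA
  rw [map_sum]
  refine Finset.sum_congr rfl fun l _ => ?_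
  rw [map_mul, PowerSeries.map_C, ev_apply]
  congr 1

theorem ext_A {x y : A} (h : ∀ m, ev A m x = ev A m y) : x = y :=
  Subtype.ext (funext h)

theorem ext_PA {x y : PowerSeries A}
    (h : ∀ m, PowerSeries.map (ev A m) x = PowerSeries.map (ev A m) y) : x = y := by
  ext i : 1
  refine ext_A fun m => ?_
  have := congrArg (PowerSeries.coeff i) (h m)
  rwa [PowerSeries.coeff_map, PowerSeries.coeff_map] at this

/-- division by the coordinate of smallest order -/
theorem exists_H {N : ℕ} (g0 : PowerSeries A) (g : Fin N → PowerSeries A) (r : ℕ)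
    (h0 : ∀ i < r, PowerSeries.coeff i g0 = 0) (h1 : PowerSeries.coeff r g0 = 1)
    (h2 : ∀ j, ∀ i ≤ r, PowerSeries.coeff i (g j) = 0) :
    ∃ H : Fin N → PowerSeries A, ∀ j, H j * g0 = g j := by
  obtain ⟨U, hU⟩ := PowerSeries.X_pow_dvd_iff.2 h0
  have hU1 : PowerSeries.constantCoeff U = 1 := by
    have := h1
    rw [hU, PowerSeries.coeff_X_pow_mul', if_pos le_rfl, Nat.sub_self,
      PowerSeries.coeff_zero_eq_constantCoeff_apply] at this
    exact this
  have hUu : IsUnit U := by
    rw [PowerSeries.isUnit_iff_constantCoeff, hU1]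
    exact isUnit_one
  obtain ⟨Ui, hUi⟩ := hUu.exists_right_inv
  have h3 : ∀ j, ∃ G, g j = PowerSeries.X ^ (r + 1) * G := fun j =>
    PowerSeries.X_pow_dvd_iff.2 fun i hi => h2 j i (by omega)
  choose G hG using h3
  refine ⟨fun j => PowerSeries.X * G j * Ui, fun j => ?_⟩
  rw [hU, hG j, pow_succ]
  calc PowerSeries.X * G j * Ui * (PowerSeries.X ^ r * U) =
      PowerSeries.X ^ r * PowerSeries.X * G j * (U * Ui) := by ring
    _ = _ := by rw [hUi, mul_one]

end ring

section laurent

variable {k : Type} [Field k]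

/-- power series as Laurent series -/
noncomputable abbrev oP (k : Type) [Field k] : PowerSeries k →+* LaurentSeries k :=
  HahnSeries.ofPowerSeries ℤ k

theorem oP_coeff_nat (p : PowerSeries k) (i : ℕ) : (oP k p).coeff (i : ℤ) = PowerSeries.coeff i p :=
  HahnSeries.ofPowerSeries_apply_coeff p i

theorem oP_coeff_neg (p : PowerSeries k) {i : ℤ} (hi : i < 0) : (oP k p).coeff i = 0 := by
  have := PowerSeries.coeff_coe p i
  rw [if_pos hi] at this
  exact this

theorem oP_inj : Function.Injective (oP k) := HahnSeries.ofPowerSeries_injective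

theorem exists_oP {y : LaurentSeries k} (hy : ∀ i < 0, y.coeff i = 0) :
    ∃ p : PowerSeries k, oP k p = y := by
  refine ⟨PowerSeries.mk fun n => y.coeff (n : ℤ), ?_⟩
  ext i
  rcases lt_or_ge i 0 with h | h
  · rw [oP_coeff_neg _ h, hy i h]
  · obtain ⟨n, rfl⟩ := Int.eq_ofNat_of_zero_le h
    rw [oP_coeff_nat, PowerSeries.coeff_mk]

theorem exists_shift (x : LaurentSeries k) : ∃ n : ℕ, ∀ m : ℕ, n ≤ m →
    ∃ p : PowerSeries k, oP k p = HahnSeries.single (m : ℤ) 1 * x := by
  refine ⟨(-x.order).toNat, fun m hm => exists_oP fun i hi => ?_⟩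
  have h1 : i = (i - m) + (m : ℤ) := by ring
  rw [h1, HahnSeries.coeff_single_mul_add, one_mul]
  apply HahnSeries.coeff_eq_zero_of_lt_order
  omega

end laurent


section second

variable {k : Type} [Field k] {A : Subalgebra k (ℕ → k)} {d N : ℕ}

/-- the family with coefficients in the power series in `s` -/
noncomputable def fO (p : Fin d → PowerSeries k) (E : Fin d → PowerSeries k) :
    PowerSeries (PowerSeries k) :=
  ∑ l, PowerSeries.C (p l) * PowerSeries.map (PowerSeries.C (R := k)) (E l)

theorem map_fO (lam : A →+* LaurentSeries k)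
    (hlam : ∀ a, lam (algebraMap k A a) = HahnSeries.C a) (n : ℤ) (b : Fin d → A)
    (p : Fin d → PowerSeries k) (E : Fin d → PowerSeries k)
    (hp : ∀ l, oP k (p l) = HahnSeries.single n 1 * lam (b l)) :
    PowerSeries.map (oP k) (fO p E) =
      PowerSeries.C (HahnSeries.single n (1 : k)) * PowerSeries.map lam (gA b E) := by
  unfold fO gA
  rw [map_sum, map_sum, Finset.mul_sum]
  refine Finset.sum_congr rfl fun l _ => ?_
  rw [map_mul, map_mul, PowerSeries.map_C, PowerSeries.map_C, hp l, map_mul, mul_assoc]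
  congr 2
  ext i : 1
  simp only [PowerSeries.coeff_map]
  rw [hlam]
  exact HahnSeries.ofPowerSeries_C _

theorem map_oP_inj : Function.Injective (PowerSeries.map (oP k)) := by
  intro x y h
  ext i : 1
  have := congrArg (PowerSeries.coeff i) h
  rw [PowerSeries.coeff_map, PowerSeries.coeff_map] at this
  exact oP_inj this

/-- the homogenization -/
noncomputable def hm' {R : Type} [CommRing R] [Algebra k R] {N : ℕ} (F : MvPolynomial (Fin N) k)
    (D : ℕ) (f0 : R) (f : Fin N → R) : R :=
  ∑ α ∈ F.support, algebraMap k R (F.coeff α) * (∏ j, f j ^ α j) * f0 ^ (D - ∑ j, α j)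

theorem hm'_eq (lam : A →+* LaurentSeries k)
    (hlam : ∀ a, lam (algebraMap k A a) = HahnSeries.C a) (H : Fin N → PowerSeries A)
    (f0 : PowerSeries (PowerSeries k)) (f : Fin N → PowerSeries (PowerSeries k))
    (hf : ∀ j, PowerSeries.map (oP k) (f j) =
      PowerSeries.map lam (H j) * PowerSeries.map (oP k) f0)
    (F : MvPolynomial (Fin N) k) (hF : MvPolynomial.aeval H F = 0) (D : ℕ)
    (hD : ∀ α ∈ F.support, ∑ j, α j ≤ D) : hm' F D f0 f = 0 := by
  apply map_oP_inj
  rw [map_zero]
  unfold hm'
  rw [map_sum]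
  have h1 : ∀ α ∈ F.support, PowerSeries.map (oP k)
      (algebraMap k (PowerSeries (PowerSeries k)) (F.coeff α) * (∏ j, f j ^ α j) *
        f0 ^ (D - ∑ j, α j)) =
      PowerSeries.map lam (algebraMap k (PowerSeries A) (F.coeff α) * ∏ j, H j ^ α j) *
        PowerSeries.map (oP k) f0 ^ D := by
    intro α hα
    rw [map_mul, map_mul, map_mul, map_prod, map_prod, map_pow]
    have e1 : PowerSeries.map (oP k) (algebraMap k (PowerSeries (PowerSeries k)) (F.coeff α)) =
        PowerSeries.map lam (algebraMap k (PowerSeries A) (F.coeff α)) := by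
      have l1 : algebraMap k (PowerSeries A) (F.coeff α) =
        PowerSeries.C (algebraMap k A (F.coeff α)) := PowerSeries.algebraMap_apply
      have l2 : algebraMap k (PowerSeries (PowerSeries k)) (F.coeff α) =
          PowerSeries.C (PowerSeries.C (F.coeff α)) := by
        rw [PowerSeries.algebraMap_apply, PowerSeries.algebraMap_apply]
        rfl
      rw [l1, l2, PowerSeries.map_C, PowerSeries.map_C, hlam]
      congr 1
      exact HahnSeries.ofPowerSeries_C _
    have e2 : ∏ j, PowerSeries.map (oP k) (f j ^ α j) =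
        (∏ j, PowerSeries.map lam (H j ^ α j)) * PowerSeries.map (oP k) f0 ^ (∑ j, α j) := by
      rw [← Finset.prod_pow_eq_pow_sum, ← Finset.prod_mul_distrib]
      refine Finset.prod_congr rfl fun j _ => ?_
      rw [map_pow, map_pow, hf j, mul_pow]
    rw [e1, e2]
    have e3 : PowerSeries.map (oP k) f0 ^ D = PowerSeries.map (oP k) f0 ^ (∑ j, α j) *
        PowerSeries.map (oP k) f0 ^ (D - ∑ j, α j) := by
      rw [← pow_add]
      congr 1
      have := hD α hα
      omega
    rw [e3]
    ring
  rw [Finset.sum_congr rfl h1, ← Finset.sum_mul, ← map_sum]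
  have h2 : ∑ α ∈ F.support, algebraMap k (PowerSeries A) (F.coeff α) * ∏ j, H j ^ α j = 0 := by
    rw [← hF, MvPolynomial.aeval_def, MvPolynomial.eval₂_eq']
  rw [h2, map_zero, zero_mul]

/-- non-divisibility -/
theorem not_dvd (lam : A →+* LaurentSeries k) (H : PowerSeries A)
    (f0 f : PowerSeries (PowerSeries k)) (h0 : f0 ≠ 0)
    (hf : PowerSeries.map (oP k) f = PowerSeries.map lam H * PowerSeries.map (oP k) f0)
    (i : ℕ) (a : ℤ) (ha : a < 0) (hne : (lam (PowerSeries.coeff i H)).coeff a ≠ 0) :
    ¬ f0 ∣ f := by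
  rintro ⟨q, rfl⟩
  rw [map_mul] at hf
  have h1 : PowerSeries.map (oP k) f0 ≠ 0 := by
    intro h
    apply h0
    apply map_oP_inj
    rw [h, map_zero]
  have h2 : PowerSeries.map (oP k) q = PowerSeries.map lam H := by
    apply mul_right_cancel₀ h1
    rw [← hf, mul_comm]
  apply hne
  have h3 := congrArg (PowerSeries.coeff i) h2
  rw [PowerSeries.coeff_map, PowerSeries.coeff_map] at h3
  rw [← h3, oP_coeff_neg _ ha]

end second

end Pool.Agent.TH541.BB
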