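import Pool.Agent.TH152.BB.Stm
import Pool.Agent.W369.RG.RIE
import Pool.Agent.TH541.BB.Core

/-!
# From families of maps to families of power series
(job BB-ONE of helper152, written by helper541)
-/

set_option autoImplicit false
set_option linter.unusedSectionVars false

open FF

namespace Pool.Agent.TH541.BB

open Pool.Agent.W603.LV Pool.Agent.W603.PV

section places

variable {k L : Type} [Field k] [Field L] [Algebra k L]

theorem bddBelow_V (P : Place k L) (V : Submodule k L) [FiniteDimensional k V] :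
    ∃ M : ℕ, ∀ v ∈ V, Ge P (-(M : ℤ)) v := by
  have hfg : V.FG := (Submodule.fg_iff_finiteDimensional V).2 inferInstance
  obtain ⟨S, hS⟩ := hfg
  refine ⟨∑ x ∈ S, (-P.ord x).toNat, fun v hv => ?_⟩
  rw [← hS] at hv
  refine Submodule.span_induction (p := fun v _ => Ge P (-((∑ x ∈ S, (-P.ord x).toNat : ℕ) : ℤ)) v)
    ?_ ?_ ?_ ?_ hv
  · intro x hx
    right
    have h3 : (-P.ord x).toNat ≤ ∑ x ∈ S, (-P.ord x).toNat :=
      Finset.single_le_sum (f := fun x => (-P.ord x).toNat) (fun _ _ => Nat.zero_le _) hx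
    omega
  · exact Ge.zero
  · intro x y _ _ hx hy
    exact hx.add hy
  · intro a x _ hx
    rw [Algebra.smul_def]
    have := (Ge.const (P := P) a).mul hx
    rwa [zero_add] at this

theorem bddAbove_V (P : Place k L) (V : Submodule k L) [FiniteDimensional k V] :
    ∃ R : ℕ, ∀ v ∈ V, v ≠ 0 → P.ord v < R := by
  let W : ℕ →o (Submodule k V)ᵒᵈ :=
    { toFun := fun i => OrderDual.toDual
        { carrier := {v | Ge P (i : ℤ) (v : L)}
          add_mem' := fun {a b} ha hb => Ge.add ha hb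
          zero_mem' := Ge.zero
          smul_mem' := fun a x hx => by
            have := (Ge.const (P := P) a).mul hx
            rw [zero_add] at this
            show Ge P (i : ℤ) ((a • x : V) : L)
            rw [Submodule.coe_smul, Algebra.smul_def]
            exact this }
      monotone' := fun i j hij => by
        show _ ≤ _
        intro x hx
        exact Ge.mono (by exact_mod_cast hij) hx }
  obtain ⟨R, hR⟩ := IsArtinian.monotone_stabilizes W
  refine ⟨R, fun v hv hv0 => ?_⟩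
  by_contra hcon
  push Not at hcon
  have h1 : (⟨v, hv⟩ : V) ∈ OrderDual.ofDual (W R) := Or.inr hcon
  have h2 : ∀ m, R ≤ m → (m : ℤ) ≤ P.ord v := by
    intro m hm
    rw [hR m hm] at h1
    exact (show Ge P (m : ℤ) v from h1).resolve_left hv0
  have h3 := h2 (max R ((P.ord v).toNat + 1)) (le_max_left _ _)
  have h4 : (((P.ord v).toNat + 1 : ℕ) : ℤ) ≤ (max R ((P.ord v).toNat + 1) : ℕ) := by
    exact_mod_cast le_max_right _ _
  omega

variable [IsAlgClosed k] [CharZero k] [IsFF k L]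

theorem exists_V (P : Place k L) (N : ℕ) (B : ℤ) : ∃ V : Submodule k L, FiniteDimensional k V ∧
    (∀ v ∈ V, Ge P 0 v) ∧ ∀ f : Fin (N + 1) → L, (∃ j, f j ≠ 0) → pht k f ≤ B →
      ∃ ψ : L, ψ ≠ 0 ∧ ∀ j, ψ * f j ∈ V := by
  obtain ⟨V, hVf, hV⟩ := Pool.Agent.W369.RG.RIE.main k L N B
  obtain ⟨M, hM⟩ := bddBelow_V P V
  obtain ⟨t, ht0, ht⟩ := P.surj
  refine ⟨V.map (LinearMap.mulLeft k (t ^ M)), inferInstance, ?_, ?_⟩
  · rintro _ ⟨v, hv, rfl⟩
    rw [LinearMap.mulLeft_apply]
    have h1 : Ge P (M : ℤ) (t ^ M) := by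
      right
      rw [P.ord_pow, ht, mul_one]
    have := h1.mul (hM v hv)
    rwa [add_neg_cancel] at this
  · intro f hf hB
    obtain ⟨ψ, hψ, h⟩ := hV f hf hB
    refine ⟨t ^ M * ψ, mul_ne_zero (pow_ne_zero _ ht0) hψ, fun j => ?_⟩
    exact ⟨ψ * f j, h j, by rw [LinearMap.mulLeft_apply, mul_assoc]⟩

theorem coeff_zero {P : Place k L} {φ : L →+* LaurentSeries k}
    (hφ : ∀ f, f ≠ 0 → (φ f).order = P.ord f) {x : L} {n : ℤ} (hx : Ge P n x) {i : ℤ}
    (hi : i < n) : (φ x).coeff i = 0 := by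
  rcases eq_or_ne x 0 with rfl | h0
  · rw [map_zero]; rfl
  · apply HahnSeries.coeff_eq_zero_of_lt_order
    rw [hφ x h0]
    exact lt_of_lt_of_le hi (hx.resolve_left h0)

theorem exists_pole {f : L} (hf : Transcendental k f) : ∃ P : Place k L, P.ord f < 0 := by
  obtain ⟨S, hS, hS2⟩ := poles (k := k) (f := f) hf
  have := IsFF.finite hf
  have h1 : 0 < Module.finrank (IntermediateField.adjoin k {f}) L := Module.finrank_pos
  rcases S.eq_empty_or_nonempty with h | ⟨P, hP⟩
  · rw [h] at hS2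
    simp at hS2
    omega
  · exact ⟨P, (hS P).1 hP⟩

end places

section norm

variable {k L : Type} [Field k] [Field L] [Algebra k L] [IsAlgClosed k] [CharZero k] [IsFF k L]

/-- normalized multipliers for a subsequence -/
theorem exists_norm {c : Place k L} {φ : L →+* LaurentSeries k}
    (hφC : ∀ a, φ (algebraMap k L a) = HahnSeries.C a)
    (hφ : ∀ f, f ≠ 0 → (φ f).order = c.ord f) (N : ℕ) (h : ℕ → Fin N → L) (B : ℤ)
    (hB : ∀ m j, hgt k (h m j) ≤ B) :
    ∃ (V : Submodule k L) (_ : FiniteDimensional k V) (r : ℕ) (σ : ℕ → ℕ) (ψ : ℕ → L),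
      (∀ v ∈ V, Ge c 0 v) ∧ Function.Injective σ ∧ (∀ m, ψ m ≠ 0) ∧
      (∀ m j, ψ m * (Fin.cons 1 (h (σ m)) : Fin (N + 1) → L) j ∈ V) ∧
      (∀ m, c.ord (ψ m) = r) ∧ ∀ m, (φ (ψ m)).coeff (r : ℤ) = 1 := by
  obtain ⟨V, hVf, hV0, hV⟩ := exists_V (k := k) c N (N * B)
  obtain ⟨R, hR⟩ := bddAbove_V c V
  have h1 : ∀ m, ∃ ψ : L, ψ ≠ 0 ∧ ∀ j, ψ * (Fin.cons 1 (h m) : Fin (N + 1) → L) j ∈ V := by
    intro m
    have hne : (Fin.cons 1 (h m) : Fin (N + 1) → L) 0 ≠ 0 := by simp
    refine hV _ ⟨0, hne⟩ ?_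
    refine (pht_le _ hne).trans ?_
    rw [Fin.sum_univ_succ]
    simp only [Fin.cons_zero, Fin.cons_succ, div_one]
    rw [hgt_one, zero_add]
    calc ∑ j, hgt k (h m j) ≤ ∑ _j : Fin N, B := Finset.sum_le_sum fun j _ => hB m j
      _ = N * B := by simp
  choose ψ0 hψ0 hψV using h1
  have hψV0 : ∀ m, ψ0 m ∈ V := fun m => by simpa using hψV m 0
  have hr : ∀ m, (c.ord (ψ0 m)).toNat < R := by
    intro m
    have a1 := hR _ (hψV0 m) (hψ0 m)
    have a2 := (hV0 _ (hψV0 m)).resolve_left (hψ0 m)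
    omega
  obtain ⟨r, hrinf⟩ := Finite.exists_infinite_fiber
    (fun m : ℕ => (⟨(c.ord (ψ0 m)).toNat, hr m⟩ : Fin R))
  let ι := Infinite.natEmbedding ((fun m : ℕ => (⟨(c.ord (ψ0 m)).toNat, hr m⟩ : Fin R)) ⁻¹' {r})
  have hι : ∀ m, c.ord (ψ0 (ι m).1) = ((r : ℕ) : ℤ) := by
    intro m
    have a1 : (fun m : ℕ => (⟨(c.ord (ψ0 m)).toNat, hr m⟩ : Fin R)) (ι m).1 = r := (ι m).2
    have a2 := congrArg Fin.val a1
    simp only at a2
    have a3 := (hV0 _ (hψV0 (ι m).1)).resolve_left (hψ0 _)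
    omega
  have hu : ∀ m, (φ (ψ0 (ι m).1)).coeff ((r : ℕ) : ℤ) ≠ 0 := by
    intro m
    rw [← hι m, ← hφ _ (hψ0 _)]
    apply HahnSeries.coeff_order_eq_zero.not.2
    intro h0
    exact hψ0 (ι m).1 (φ.injective (by rw [h0, map_zero]))
  refine ⟨V, hVf, r, fun m => (ι m).1,
    fun m => algebraMap k L ((φ (ψ0 (ι m).1)).coeff ((r : ℕ) : ℤ))⁻¹ * ψ0 (ι m).1, hV0, ?_, ?_, ?_,
    ?_, ?_⟩
  · intro a b hab
    exact ι.injective (Subtype.ext hab)
  · intro m
    refine mul_ne_zero ?_ (hψ0 _)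
    rw [Ne, FaithfulSMul.algebraMap_eq_zero_iff]
    exact inv_ne_zero (hu m)
  · intro m j
    rw [mul_assoc, ← Algebra.smul_def]
    exact V.smul_mem _ (hψV _ j)
  · intro m
    have a1 : algebraMap k L ((φ (ψ0 (ι m).1)).coeff ((r : ℕ) : ℤ))⁻¹ ≠ 0 := by
      rw [Ne, FaithfulSMul.algebraMap_eq_zero_iff]
      exact inv_ne_zero (hu m)
    rw [c.ord_mul a1 (hψ0 _), c.ord_const (inv_ne_zero (hu m)), hι m, zero_add]
  · intro m
    rw [map_mul, hφC, HahnSeries.C_mul_eq_smul, HahnSeries.coeff_smul, smul_eq_mul]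
    exact inv_mul_cancel₀ (hu m)

end norm

open Pool.Agent.TH152.BB in
theorem one_all (hCOMP : S_COMP) (hSPEC : S_SPEC) (hBDD : S_BDD) : S_ONE := by
  intro k L _ _ _ _ _ _ c N h B hinj hreg hB
  obtain ⟨φ, hφC, hφo⟩ := hCOMP k L c
  obtain ⟨V, hVf, r, σ, ψ, hV0, hσ, hψ0, hψV, hψr, hψ1⟩ := exists_norm hφC hφo N h B hB
  set F1 : ℕ → Fin (N + 1) → L := fun m => Fin.cons 1 (h (σ m)) with hF1
  have hF0 : ∀ m, F1 m 0 = 1 := fun m => rfl
  have hFs : ∀ m (j : Fin N), F1 m j.succ = h (σ m) j := fun m j => rfl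
  -- the basis
  set d := Module.finrank k V with hd
  set bs := Module.finBasis k V with hbs
  set e : Fin d → L := fun l => (bs l : L) with he
  have hE : ∀ l, ∃ p : PowerSeries k, oP k p = φ (e l) := fun l =>
    exists_oP fun i hi => coeff_zero hφo (hV0 _ (bs l).2) hi
  choose E hE using hE
  set bf : Fin (N + 1) → Fin d → (ℕ → k) :=
    fun j l m => bs.repr ⟨ψ m * F1 m j, hψV m j⟩ l with hbf
  have hsum : ∀ m j, ∑ l, algebraMap k L (bf j l m) * e l = ψ m * F1 m j := by
    intro m j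
    have a1 := bs.sum_repr ⟨ψ m * F1 m j, hψV m j⟩
    have a2 := congrArg (fun v : V => (v : L)) a1
    simp only [Submodule.coe_sum, Submodule.coe_smul, Algebra.smul_def] at a2
    exact a2
  set A : Subalgebra k (ℕ → k) :=
    Algebra.adjoin k (Set.range fun p : Fin (N + 1) × Fin d => bf p.1 p.2) with hA
  have hAfg : A.FG := by
    refine ⟨(Set.finite_range fun p : Fin (N + 1) × Fin d => bf p.1 p.2).toFinset, ?_⟩
    rw [Set.Finite.coe_toFinset]
  have hbm : ∀ j l, bf j l ∈ A := fun j l => Algebra.subset_adjoin ⟨(j, l), rfl⟩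
  set bA : Fin (N + 1) → Fin d → A := fun j l => ⟨bf j l, hbm j l⟩ with hbA
  have key : ∀ m j, oP k (PowerSeries.map (ev A m) (gA (bA j) E)) = φ (ψ m * F1 m j) := by
    intro m j
    rw [map_ev_gA, map_sum, ← hsum m j, map_sum]
    refine Finset.sum_congr rfl fun l _ => ?_
    rw [map_mul, map_mul, hE l, hφC]
    congr 1
    exact HahnSeries.ofPowerSeries_C _
  have hcoef : ∀ m j i, ev A m (PowerSeries.coeff i (gA (bA j) E)) =
      (φ (ψ m * F1 m j)).coeff (i : ℤ) := by
    intro m j i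
    rw [← key, oP_coeff_nat, PowerSeries.coeff_map]
  have hg0 : ∀ i < r, PowerSeries.coeff i (gA (bA 0) E) = 0 := by
    intro i hi
    refine ext_A fun m => ?_
    rw [hcoef, hF0, mul_one, map_zero]
    exact coeff_zero hφo (Or.inr (hψr m).ge) (by exact_mod_cast hi)
  have hg1 : PowerSeries.coeff r (gA (bA 0) E) = 1 := by
    refine ext_A fun m => ?_
    rw [hcoef, hF0, mul_one, map_one]
    exact hψ1 m
  have hgj : ∀ j : Fin N, ∀ i ≤ r, PowerSeries.coeff i (gA (bA j.succ) E) = 0 := by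
    intro j i hi
    refine ext_A fun m => ?_
    rw [hcoef, hFs, map_zero]
    have a1 : Ge c 1 (h (σ m) j) := by
      rcases hreg (σ m) j with h0 | h0
      · exact Or.inl h0
      · exact Or.inr h0
    have a0 : Ge c (r : ℤ) (ψ m) := Or.inr (hψr m).ge
    have a2 := a0.mul a1
    exact coeff_zero hφo a2 (by omega)
  obtain ⟨H, hH⟩ := exists_H (gA (bA 0) E) (fun j : Fin N => gA (bA j.succ) E) r hg0 hg1 hgj
  have key2 : ∀ m j, oP k (PowerSeries.map (ev A m) (H j)) = φ (h (σ m) j) := by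
    intro m j
    have a1 := congrArg (fun x => oP k (PowerSeries.map (ev A m) x)) (hH j)
    simp only [map_mul] at a1
    rw [key, key, hF0, mul_one, hFs, map_mul, mul_comm] at a1
    have a2 : φ (ψ m) ≠ 0 := fun h0 => hψ0 m (φ.injective (by rw [h0, map_zero]))
    exact mul_left_cancel₀ a2 a1
  obtain ⟨j, i, hinf⟩ := hBDD k L c φ hφC hφo N (fun m => h (σ m)) B
    (fun a b hab => hσ (hinj hab)) (fun m j => hreg _ j) (fun m j => hB _ j)
  have hi : 0 ≤ i := by
    by_contra hi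
    push Not at hi
    apply hinf
    refine (Set.finite_singleton (0 : k)).subset ?_
    rintro _ ⟨m, rfl⟩
    rw [Set.mem_singleton_iff]
    simp only
    rw [← key2, oP_coeff_neg _ hi]
  obtain ⟨i, rfl⟩ := Int.eq_ofNat_of_zero_le hi
  have hθ : (Set.range ((PowerSeries.coeff i (H j) : A) : ℕ → k)).Infinite := by
    have : ((PowerSeries.coeff i (H j) : A) : ℕ → k) =
        fun m => (φ (h (σ m) j)).coeff (i : ℤ) := by
      funext m
      rw [← key2, oP_coeff_nat, PowerSeries.coeff_map]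
      rfl
    rw [this]
    exact hinf
  obtain ⟨K, _, _, _, χ, hχ⟩ := hSPEC k A hAfg _ hθ
  obtain ⟨P, hP⟩ := exists_pole (k := k) hχ
  obtain ⟨φP, hC, ho⟩ := hCOMP k K P
  set lam : A →+* LaurentSeries k := φP.comp χ.toRingHom with hlam'
  have hlam : ∀ a, lam (algebraMap k A a) = HahnSeries.C a := by
    intro a
    rw [hlam', RingHom.comp_apply]
    have : χ.toRingHom (algebraMap k A a) = algebraMap k K a := χ.commutes a
    rw [this, hC]
  have hsh := fun p : Fin (N + 1) × Fin d => exists_shift (lam (bA p.1 p.2))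
  choose ns hns using hsh
  set n : ℕ := ∑ p, ns p with hn
  have hp : ∀ j l, ∃ p : PowerSeries k, oP k p = HahnSeries.single (n : ℤ) 1 * lam (bA j l) :=
    fun j l => hns (j, l) n
      (Finset.single_le_sum (f := ns) (fun _ _ => Nat.zero_le _) (Finset.mem_univ (j, l)))
  choose p hp using hp
  have hΦ : ∀ j, PowerSeries.map (oP k) (fO (p j) E) =
      PowerSeries.C (HahnSeries.single (n : ℤ) (1 : k)) * PowerSeries.map lam (gA (bA j) E) :=
    fun j => map_fO lam hlam n (bA j) (p j) E (hp j)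
  have hf : ∀ j : Fin N, PowerSeries.map (oP k) (fO (p j.succ) E) =
      PowerSeries.map lam (H j) * PowerSeries.map (oP k) (fO (p 0) E) := by
    intro j
    rw [hΦ, hΦ, ← hH j, map_mul]
    ring
  have hcf : ∀ j i, oP k (PowerSeries.coeff i (fO (p j) E)) =
      HahnSeries.single (n : ℤ) (1 : k) * lam (PowerSeries.coeff i (gA (bA j) E)) := by
    intro j i
    have := congrArg (PowerSeries.coeff i) (hΦ j)
    rwa [PowerSeries.coeff_map, PowerSeries.coeff_C_mul, PowerSeries.coeff_map] at this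
  have hr1 : PowerSeries.coeff r (fO (p 0) E) ≠ 0 := by
    intro h0
    have := hcf 0 r
    rw [h0, map_zero, hg1, RingHom.map_one lam, mul_one] at this
    have h1 := congrArg (fun x : LaurentSeries k => x.coeff (n : ℤ)) this
    simp at h1
  have hf0 : fO (p 0) E ≠ 0 := by
    intro h0
    rw [h0, map_zero] at hr1
    exact hr1 rfl
  refine ⟨fO (p 0) E, fun j => fO (p j.succ) E, r, ?_, hr1, ?_, ⟨j, ?_⟩, ?_⟩
  · intro i hi
    apply oP_inj
    rw [hcf, hg0 i hi, map_zero, mul_zero, map_zero]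
  · intro j i hi
    apply oP_inj
    rw [hcf, hgj j i hi, map_zero, mul_zero, map_zero]
  · have hχ0 : χ (PowerSeries.coeff i (H j)) ≠ 0 := by
      intro h0
      rw [h0, P.ord_zero] at hP
      exact lt_irrefl _ hP
    refine not_dvd lam (H j) _ _ hf0 (hf j) i (P.ord (χ (PowerSeries.coeff i (H j)))) hP ?_
    have : lam (PowerSeries.coeff i (H j)) = φP (χ (PowerSeries.coeff i (H j))) := rfl
    rw [this, ← ho _ hχ0]
    apply HahnSeries.coeff_order_eq_zero.not.2
    intro h0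
    exact hχ0 (φP.injective (by rw [h0, map_zero]))
  · intro F hF D hD
    have hF' : MvPolynomial.aeval H F = 0 := by
      refine ext_PA fun m => ?_
      rw [map_zero]
      apply oP_inj
      rw [map_zero]
      have a1 := congrArg φ (hF (σ m))
      rw [map_zero, MvPolynomial.aeval_def, MvPolynomial.eval₂_comp_left] at a1
      rw [MvPolynomial.aeval_def, MvPolynomial.eval₂_comp_left, MvPolynomial.eval₂_comp_left,
        ← a1]
      congr 1
      · ext a : 1
        rw [RingHom.comp_apply, RingHom.comp_apply, RingHom.comp_apply, hφC]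
        have l1 : algebraMap k (PowerSeries A) a = PowerSeries.C (algebraMap k A a) :=
          PowerSeries.algebraMap_apply
        rw [l1, PowerSeries.map_C, ev_algebraMap]
        exact HahnSeries.ofPowerSeries_C _
      · funext j
        exact key2 m j
    exact hm'_eq lam hlam H (fO (p 0) E) (fun j => fO (p j.succ) E) hf F hF' D hD

end Pool.Agent.TH541.BB

namespace Pool.Agent.TH152.BB

theorem one_all (hCOMP : S_COMP) (hSPEC : S_SPEC) (hBDD : S_BDD) : S_ONE :=
  Pool.Agent.TH541.BB.one_all hCOMP hSPEC hBDD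

end Pool.Agent.TH152.BB
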